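import Mathlib

namespace Pool.Agent.Results.MP_8dfbdc_an.Disproof

open Filter Topology

/-- The norm of `X` is polyhedral: there is a finite nonempty set of linear functionals with
`‖x‖ = max |φ x|` for every `x`. -/
def IsPolyhedralNorm (X : Type) [NormedAddCommGroup X] [NormedSpace ℝ X] : Prop :=
  ∃ s : Finset (X →ₗ[ℝ] ℝ), ∀ x : X, IsGreatest {r : ℝ | ∃ φ ∈ s, r = |φ x|} ‖x‖

/-- `M` is a `C¹` embedded submanifold of the finite-dimensional space `X` (of dimension `n`):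
every point `p` of `M` lies in an open set `ψ.source` carrying a `C¹` diffeomorphism `ψ` onto an
open subset `ψ.target` of `ℝⁿ` such that
`ψ (ψ.source ∩ M) = ψ.target ∩ (ℝᵏ × {0})` for some `k`. -/
def IsC1Submanifold {X : Type} [NormedAddCommGroup X] [NormedSpace ℝ X] (M : Set X) : Prop :=
  ∀ p ∈ M, ∃ (k : ℕ) (ψ : OpenPartialHomeomorph X (Fin (Module.finrank ℝ X) → ℝ)),
    p ∈ ψ.source ∧ ContDiffOn ℝ 1 ψ ψ.source ∧ ContDiffOn ℝ 1 ψ.symm ψ.target ∧
      ψ '' (ψ.source ∩ M) = ψ.target ∩ {y | ∀ i : Fin (Module.finrank ℝ X), k ≤ (i : ℕ) → y i = 0}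

/-- The map `f (x, y, z) = ((2 x - z + sin x cos y + sin (x + z)) / 4, y, z)`. -/
noncomputable def f (v : Fin 3 → ℝ) : Fin 3 → ℝ :=
  ![(2 * v 0 - v 2 + Real.sin (v 0) * Real.cos (v 1) + Real.sin (v 0 + v 2)) / 4, v 1, v 2]

/-- The function `h t = t - sin t`. -/
noncomputable def h (t : ℝ) : ℝ := t - Real.sin t

lemma f_zero_coord (v : Fin 3 → ℝ) :
    f v 0 = v 0 - (h (v 0 + v 1) + h (v 0 - v 1) + 2 * h (v 0 + v 2)) / 8 := by
  simp only [f, h, Real.sin_add, Real.sin_sub, Matrix.cons_val_zero]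
  ring

lemma mem_fix_iff (v : Fin 3 → ℝ) :
    f v = v ↔ h (v 0 + v 1) + h (v 0 - v 1) + 2 * h (v 0 + v 2) = 0 := by
  constructor
  · intro hv
    have h0 := congrFun hv 0
    rw [f_zero_coord] at h0
    linarith
  · intro hv
    funext i
    fin_cases i
    · show f v 0 = v 0
      rw [f_zero_coord, hv]; ring
    · simp [f]
    · simp [f]

lemma sin_sub_sin_le (a b : ℝ) : |Real.sin a - Real.sin b| ≤ |a - b| := by
  have := Real.abs_sin_sub_sin_le a b
  exact this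

/-- The basic `2`-Lipschitz estimate: `(x, y) ↦ 2 x - h (x + y)`. -/
lemma key_lip (x y x' y' L : ℝ) (hx : |x - x'| ≤ L) (hy : |y - y'| ≤ L) :
    |(2 * x - h (x + y)) - (2 * x' - h (x' + y'))| ≤ 2 * L := by
  have h1 : (2 * x - h (x + y)) - (2 * x' - h (x' + y')) =
      ((x - x') - (y - y')) + (Real.sin (x + y) - Real.sin (x' + y')) := by
    simp only [h]; ring
  rw [h1]
  have h2 := sin_sub_sin_le (x + y) (x' + y')
  have h3 : (x + y) - (x' + y') = (x - x') + (y - y') := by ring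
  rw [h3] at h2
  refine (abs_add_le _ _).trans ?_
  rcases abs_cases (x - x' - (y - y')) with ⟨h4, _⟩ | ⟨h4, _⟩ <;>
  rcases abs_cases (x - x' + (y - y')) with ⟨h5, _⟩ | ⟨h5, _⟩ <;>
  rw [abs_le] at hx hy <;> linarith [hx.1, hx.2, hy.1, hy.2]

lemma f_nonexpansive (u v : Fin 3 → ℝ) : ‖f u - f v‖ ≤ ‖u - v‖ := by
  have hc : ∀ i, |u i - v i| ≤ ‖u - v‖ := fun i => by
    have := norm_le_pi_norm (u - v) i
    simpa using this
  rw [pi_norm_le_iff_of_nonneg (norm_nonneg _)]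
  intro i
  fin_cases i
  · show ‖f u 0 - f v 0‖ ≤ _
    rw [f_zero_coord, f_zero_coord, Real.norm_eq_abs]
    have e : u 0 - (h (u 0 + u 1) + h (u 0 - u 1) + 2 * h (u 0 + u 2)) / 8 -
        (v 0 - (h (v 0 + v 1) + h (v 0 - v 1) + 2 * h (v 0 + v 2)) / 8) =
        (1 / 8) * (((2 * u 0 - h (u 0 + u 1)) - (2 * v 0 - h (v 0 + v 1))) +
          (((2 * u 0 - h (u 0 + (- u 1))) - (2 * v 0 - h (v 0 + (- v 1)))) +
          2 * ((2 * u 0 - h (u 0 + u 2)) - (2 * v 0 - h (v 0 + v 2))))) := by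
      rw [← sub_eq_add_neg, ← sub_eq_add_neg]; ring
    rw [e, abs_mul]
    have k1 := key_lip (u 0) (u 1) (v 0) (v 1) _ (hc 0) (hc 1)
    have k2 := key_lip (u 0) (-u 1) (v 0) (-v 1) _ (hc 0) (by
      have : -u 1 - -v 1 = -(u 1 - v 1) := by ring
      rw [this, abs_neg]; exact hc 1)
    have k3 := key_lip (u 0) (u 2) (v 0) (v 2) _ (hc 0) (hc 2)
    have t1 := abs_add_le ((2 * u 0 - h (u 0 + u 1)) - (2 * v 0 - h (v 0 + v 1)))
      (((2 * u 0 - h (u 0 + (- u 1))) - (2 * v 0 - h (v 0 + (- v 1)))) +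
          2 * ((2 * u 0 - h (u 0 + u 2)) - (2 * v 0 - h (v 0 + v 2))))
    have t2 := abs_add_le ((2 * u 0 - h (u 0 + (- u 1))) - (2 * v 0 - h (v 0 + (- v 1))))
      (2 * ((2 * u 0 - h (u 0 + u 2)) - (2 * v 0 - h (v 0 + v 2))))
    rw [abs_mul 2] at t2
    have e2 : |(2 : ℝ)| = 2 := abs_of_pos two_pos
    have e8 : |(1 / 8 : ℝ)| = 1 / 8 := abs_of_pos (by norm_num)
    rw [e2] at t2
    rw [e8]
    linarith
  · simpa [f] using hc 1
  · simpa [f] using hc 2

lemma f_analytic : AnalyticOnNhd ℝ f Set.univ := by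
  intro v _
  rw [show f = fun v => ![(2 * v 0 - v 2 + Real.sin (v 0) * Real.cos (v 1) +
    Real.sin (v 0 + v 2)) / 4, v 1, v 2] from rfl]
  have hp : ∀ i : Fin 3, AnalyticAt ℝ (fun v : Fin 3 → ℝ => v i) v := fun i =>
    (ContinuousLinearMap.proj (R := ℝ) (φ := fun _ : Fin 3 => ℝ) i).analyticAt v
  rw [analyticAt_pi_iff]
  intro i
  fin_cases i
  · simp only [Fin.zero_eta, Matrix.cons_val_zero]
    have s1 : AnalyticAt ℝ (fun v : Fin 3 → ℝ => Real.sin (v 0)) v :=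
      Real.analyticAt_sin.comp (hp 0)
    have s2 : AnalyticAt ℝ (fun v : Fin 3 → ℝ => Real.cos (v 1)) v :=
      Real.analyticAt_cos.comp (hp 1)
    have s3 : AnalyticAt ℝ (fun v : Fin 3 → ℝ => Real.sin (v 0 + v 2)) v :=
      Real.analyticAt_sin.comp ((hp 0).add (hp 2))
    exact ((((analyticAt_const.mul (hp 0)).sub (hp 2)).add (s1.mul s2)).add s3).div
      analyticAt_const (by norm_num)
  · exact hp 1
  · exact hp 2

/-- Third order expansion of `h` along a differentiable curve through `0`. -/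
lemma tendsto_h {u : ℝ → ℝ} {a : ℝ} (hu : HasDerivAt u a 0) (h0 : u 0 = 0) :
    Tendsto (fun t : ℝ => h (u t) / t ^ 3) (𝓝[≠] 0) (𝓝 (a ^ 3 / 6)) := by
  have hq : Tendsto (fun t : ℝ => u t / t) (𝓝[≠] 0) (𝓝 a) := by
    have := hu.tendsto_slope_zero
    simp only [zero_add, h0, sub_zero, smul_eq_mul] at this
    refine this.congr' ?_
    filter_upwards with t
    rw [div_eq_inv_mul]
  have hu0 : Tendsto u (𝓝[≠] 0) (𝓝 0) := by
    have := hu.continuousAt.tendsto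
    rw [h0] at this
    exact this.mono_left nhdsWithin_le_nhds
  have hmain : Tendsto (fun t : ℝ => (u t / t) ^ 3 / 6) (𝓝[≠] 0) (𝓝 (a ^ 3 / 6)) :=
    (hq.pow 3).div_const 6
  have herr : Tendsto (fun t : ℝ => h (u t) / t ^ 3 - (u t / t) ^ 3 / 6) (𝓝[≠] 0) (𝓝 0) := by
    have hb : Tendsto (fun t : ℝ => |u t / t| ^ 3 * |u t| ^ 2 * (1 / 100)) (𝓝[≠] 0)
        (𝓝 (|a| ^ 3 * |0| ^ 2 * (1 / 100))) :=
      ((hq.abs.pow 3).mul (hu0.abs.pow 2)).mul_const _
    have hz : |a| ^ 3 * |(0 : ℝ)| ^ 2 * (1 / 100) = 0 := by simp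
    rw [hz] at hb
    refine squeeze_zero_norm' ?_ hb
    have hsmall : ∀ᶠ t in 𝓝[≠] (0 : ℝ), |u t| ≤ 1 := by
      have := hu0.abs
      simp only [abs_zero] at this
      filter_upwards [this.eventually (gt_mem_nhds (zero_lt_one))] with t ht using ht.le
    filter_upwards [hsmall, self_mem_nhdsWithin] with t ht htne
    have htne' : t ≠ 0 := htne
    have hs := Real.sin_bound ht
    have e1 : h (u t) / t ^ 3 - (u t / t) ^ 3 / 6 =
        -(Real.sin (u t) - (u t - u t ^ 3 / 6)) / t ^ 3 := by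
      simp only [h]; field_simp; ring
    rw [e1, Real.norm_eq_abs, abs_div, abs_neg, abs_pow]
    have ht3 : 0 < |t| ^ 3 := pow_pos (abs_pos.mpr htne') 3
    rw [div_le_iff₀ ht3]
    refine hs.trans (le_of_eq ?_)
    rw [abs_div]
    have : |t| ≠ 0 := abs_ne_zero.mpr htne'
    field_simp
  have := herr.add hmain
  simp only [sub_add_cancel, zero_add] at this
  exact this

/-- A curve contained in the fixed point set near `0` has its velocity in the cubic cone. -/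
lemma cone_of_curve {γ : ℝ → Fin 3 → ℝ} {v : Fin 3 → ℝ} (hγ : HasDerivAt γ v 0)
    (h0 : γ 0 = 0) (hM : ∀ᶠ t in 𝓝 (0 : ℝ), f (γ t) = γ t) :
    (v 0 + v 1) ^ 3 + (v 0 - v 1) ^ 3 + 2 * (v 0 + v 2) ^ 3 = 0 := by
  have hc : ∀ i, HasDerivAt (fun t => γ t i) (v i) 0 := fun i => (hasDerivAt_pi.mp hγ) i
  have h0i : ∀ i, γ 0 i = 0 := fun i => by rw [h0]; rfl
  have t1 := tendsto_h (u := fun t => γ t 0 + γ t 1) ((hc 0).add (hc 1)) (by simp [h0i])
  have t2 := tendsto_h (u := fun t => γ t 0 - γ t 1) ((hc 0).sub (hc 1)) (by simp [h0i])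
  have t3 := tendsto_h (u := fun t => γ t 0 + γ t 2) ((hc 0).add (hc 2)) (by simp [h0i])
  have t4 := (t1.add t2).add (t3.const_mul 2)
  have hzero : (fun t : ℝ => h (γ t 0 + γ t 1) / t ^ 3 + h (γ t 0 - γ t 1) / t ^ 3 +
      2 * (h (γ t 0 + γ t 2) / t ^ 3)) =ᶠ[𝓝[≠] 0] fun _ => 0 := by
    filter_upwards [hM.filter_mono nhdsWithin_le_nhds] with t ht
    have := (mem_fix_iff (γ t)).mp ht
    have e : h (γ t 0 + γ t 1) / t ^ 3 + h (γ t 0 - γ t 1) / t ^ 3 +
      2 * (h (γ t 0 + γ t 2) / t ^ 3) =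
      (h (γ t 0 + γ t 1) + h (γ t 0 - γ t 1) + 2 * h (γ t 0 + γ t 2)) / t ^ 3 := by ring
    rw [e, this, zero_div]
  have t5 := t4.congr' hzero
  have := tendsto_nhds_unique t5 tendsto_const_nhds
  linarith

/-- The line through `(0, 1, 0)` is contained in the fixed point set. -/
lemma line1 (t : ℝ) : f (t • ![0, 1, 0]) = t • ![0, 1, 0] := by
  rw [mem_fix_iff]
  simp [h]

/-- The line through `(1, 0, -2)` is contained in the fixed point set. -/
lemma line2 (t : ℝ) : f (t • ![1, 0, -2]) = t • ![1, 0, -2] := by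
  rw [mem_fix_iff]
  simp only [h, Pi.smul_apply, smul_eq_mul, Matrix.cons_val_zero, Matrix.cons_val_one,
    Matrix.cons_val]
  have : t * 1 + t * -2 = -t := by ring
  rw [this, Real.sin_neg]
  simp
  ring

theorem not_submanifold : ¬ IsC1Submanifold {x : Fin 3 → ℝ | f x = x} := by
  intro hM
  have h0M : (0 : Fin 3 → ℝ) ∈ {x : Fin 3 → ℝ | f x = x} := by
    have := line1 0
    simpa using this
  obtain ⟨k, ψ, hp, hψ, hψs, himg⟩ := hM 0 h0M
  -- derivatives
  have hsrc : ψ.source ∈ 𝓝 (0 : Fin 3 → ℝ) := ψ.open_source.mem_nhds hp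
  have htgt : ψ.target ∈ 𝓝 (ψ 0) := ψ.open_target.mem_nhds (ψ.map_source hp)
  have hdψ : DifferentiableAt ℝ ψ 0 := ((hψ.contDiffAt hsrc).differentiableAt (by norm_num))
  have hdψs : DifferentiableAt ℝ ψ.symm (ψ 0) :=
    ((hψs.contDiffAt htgt).differentiableAt (by norm_num))
  set A := fderiv ℝ ψ 0 with hA
  set B := fderiv ℝ ψ.symm (ψ 0) with hB
  have hAd : HasFDerivAt ψ A 0 := hdψ.hasFDerivAt
  have hBd : HasFDerivAt ψ.symm B (ψ 0) := hdψs.hasFDerivAt
  have hBA : B.comp A = ContinuousLinearMap.id ℝ (Fin 3 → ℝ) := by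
    have hcomp : HasFDerivAt (ψ.symm ∘ ψ) (B.comp A) 0 := hBd.comp 0 hAd
    have hid : (ψ.symm ∘ ψ) =ᶠ[𝓝 0] id := by
      filter_upwards [hsrc] with x hx
      simp [ψ.left_inv hx]
    have hid' : HasFDerivAt (ψ.symm ∘ ψ) (ContinuousLinearMap.id ℝ (Fin 3 → ℝ)) 0 :=
      (hasFDerivAt_id (0 : Fin 3 → ℝ)).congr_of_eventuallyEq hid
    exact hcomp.unique hid'
  -- coordinates of points of M vanish
  have hcoord : ∀ x ∈ ψ.source, f x = x →
      ∀ i : Fin (Module.finrank ℝ (Fin 3 → ℝ)), k ≤ (i : ℕ) → ψ x i = 0 := by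
    intro x hx hfx
    have : ψ x ∈ ψ '' (ψ.source ∩ {x | f x = x}) := ⟨x, ⟨hx, hfx⟩, rfl⟩
    rw [himg] at this
    exact this.2
  have hback : ∀ y ∈ ψ.target,
      (∀ i : Fin (Module.finrank ℝ (Fin 3 → ℝ)), k ≤ (i : ℕ) → y i = 0) →
      f (ψ.symm y) = ψ.symm y := by
    intro y hy hy0
    have : y ∈ ψ '' (ψ.source ∩ {x | f x = x}) := by
      rw [himg]; exact ⟨hy, hy0⟩
    obtain ⟨x, ⟨hx, hfx⟩, rfl⟩ := this
    rw [ψ.left_inv hx]; exact hfx
  -- tangent vectors coming from lines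
  have htan : ∀ v : Fin 3 → ℝ, (∀ t : ℝ, f (t • v) = t • v) →
      ∀ i : Fin (Module.finrank ℝ (Fin 3 → ℝ)), k ≤ (i : ℕ) → A v i = 0 := by
    intro v hv i hi
    have hline : HasDerivAt (fun t : ℝ => t • v) v 0 := by
      simpa using (hasDerivAt_id (0 : ℝ)).smul_const v
    have hAd' : HasFDerivAt ψ A ((fun t : ℝ => t • v) 0) := by simpa using hAd
    have hcomp : HasDerivAt (ψ ∘ fun t : ℝ => t • v) (A v) 0 := hAd'.comp_hasDerivAt 0 hline
    have hci : HasDerivAt (fun t : ℝ => ψ (t • v) i) (A v i) 0 := (hasDerivAt_pi.mp hcomp) i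
    have hev : (fun t : ℝ => ψ (t • v) i) =ᶠ[𝓝 0] fun _ => 0 := by
      have hcont : Tendsto (fun t : ℝ => t • v) (𝓝 0) (𝓝 0) := by
        have := hline.continuousAt.tendsto
        simpa using this
      filter_upwards [hcont hsrc] with t ht
      exact hcoord _ ht (hv t) i hi
    have hconst : HasDerivAt (fun t : ℝ => ψ (t • v) i) 0 0 :=
      (hasDerivAt_const (0 : ℝ) (0 : ℝ)).congr_of_eventuallyEq hev
    exact hci.unique hconst
  have hA1 := htan _ line1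
  have hA2 := htan _ line2
  -- the vector `(1, 1, -2)` is tangent
  set v : Fin 3 → ℝ := ![1, 0, -2] + ![0, 1, 0] with hv
  have hAv : ∀ i : Fin (Module.finrank ℝ (Fin 3 → ℝ)), k ≤ (i : ℕ) → A v i = 0 := by
    intro i hi
    rw [hv, map_add, Pi.add_apply, hA1 i hi, hA2 i hi, add_zero]
  -- the curve
  have hψ0 : ∀ i : Fin (Module.finrank ℝ (Fin 3 → ℝ)), k ≤ (i : ℕ) → ψ 0 i = 0 :=
    hcoord 0 hp h0M
  have hw : HasDerivAt (fun t : ℝ => ψ 0 + t • A v) (A v) 0 := by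
    simpa using ((hasDerivAt_id (0 : ℝ)).smul_const (A v)).const_add (ψ 0)
  have hBd' : HasFDerivAt ψ.symm B ((fun t : ℝ => ψ 0 + t • A v) 0) := by simpa using hBd
  have hγ : HasDerivAt (ψ.symm ∘ fun t : ℝ => ψ 0 + t • A v) (B (A v)) 0 :=
    hBd'.comp_hasDerivAt 0 hw
  have hBAv : B (A v) = v := by
    have := congrArg (fun L => L v) hBA
    simpa using this
  rw [hBAv] at hγ
  have hγ0 : (ψ.symm ∘ fun t : ℝ => ψ 0 + t • A v) 0 = 0 := by
    simp [ψ.left_inv hp]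
  have hγM : ∀ᶠ t in 𝓝 (0 : ℝ), f ((ψ.symm ∘ fun t : ℝ => ψ 0 + t • A v) t) =
      (ψ.symm ∘ fun t : ℝ => ψ 0 + t • A v) t := by
    have hcont : Tendsto (fun t : ℝ => ψ 0 + t • A v) (𝓝 0) (𝓝 (ψ 0)) := by
      have := hw.continuousAt.tendsto
      simpa using this
    filter_upwards [hcont htgt] with t ht
    apply hback _ ht
    intro i hi
    simp [hψ0 i hi, hAv i hi]
  have := cone_of_curve hγ hγ0 hγM
  simp [hv] at this
  norm_num at this

lemma polyhedral : IsPolyhedralNorm (Fin 3 → ℝ) := by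
  classical
  refine ⟨Finset.univ.image (fun i : Fin 3 => LinearMap.proj i), fun x => ⟨?_, ?_⟩⟩
  · obtain ⟨i, -, hi⟩ := Finset.exists_mem_eq_sup' (Finset.univ_nonempty (α := Fin 3))
      (fun i => ‖x i‖)
    refine ⟨LinearMap.proj i, Finset.mem_image_of_mem _ (Finset.mem_univ i), ?_⟩
    simp only [LinearMap.proj_apply]
    rw [← Real.norm_eq_abs, ← hi]
    apply le_antisymm
    · rw [pi_norm_le_iff_of_nonempty]
      intro j
      exact Finset.le_sup' (fun i => ‖x i‖) (Finset.mem_univ j)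
    · rw [hi]; exact norm_le_pi_norm x i
  · rintro r ⟨φ, hφ, rfl⟩
    obtain ⟨i, -, rfl⟩ := Finset.mem_image.mp hφ
    simpa using norm_le_pi_norm x i

/-- There are a finite-dimensional real normed space `X` with polyhedral norm and a nonexpansive
real analytic map `g : X → X` whose fixed point set is nonempty and is not a `C¹` embedded
submanifold of `X`. -/
theorem result :
    ∃ (X : Type) (_ : NormedAddCommGroup X) (_ : NormedSpace ℝ X) (_ : FiniteDimensional ℝ X)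
      (g : X → X), IsPolyhedralNorm X ∧ (∀ x y, ‖g x - g y‖ ≤ ‖x - y‖) ∧
        AnalyticOnNhd ℝ g Set.univ ∧ {x | g x = x}.Nonempty ∧
        ¬ IsC1Submanifold {x | g x = x} :=
  ⟨Fin 3 → ℝ, inferInstance, inferInstance, inferInstance, f, polyhedral, f_nonexpansive,
    f_analytic, ⟨0, by have := line1 0; simpa using this⟩, not_submanifold⟩

end Pool.Agent.Results.MP_8dfbdc_an.Disproof
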